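import Mathlib

open Finset MvPolynomial

namespace Pool.Agent.Helper92.RowRank

variable {K : Type*} [Field K]

/-- The number of monomials of degree at most `d` in `V` variables is at most `binom (d + V) V`. -/
lemma finrank_restrictTotalDegree_le (σ : Type) [Fintype σ] (d : ℕ) :
    Module.finrank K (restrictTotalDegree σ K d) ≤ (d + Fintype.card σ).choose (Fintype.card σ) := by
  classical
  have h1 : Module.finrank K (restrictTotalDegree σ K d)
      = Nat.card {s : σ →₀ ℕ | (s.sum fun _ e => e) ≤ d} :=
    Module.finrank_eq_nat_card_basis (basisRestrictSupport K _)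
  rw [h1]
  let f : {s : σ →₀ ℕ | (s.sum fun _ e => e) ≤ d} → {P : Option σ → ℕ // ∑ i, P i = d} :=
    fun s => ⟨fun o => o.elim (d - ∑ i, s.1 i) (fun i => s.1 i), by
      have hs : (s.1.sum fun _ e => e) ≤ d := s.2
      rw [Finsupp.sum_fintype _ _ (fun _ => rfl)] at hs
      rw [Fintype.sum_option]
      simp only [Option.elim_none, Option.elim_some]
      omega⟩
  have hf : Function.Injective f := by
    intro s t h
    apply Subtype.ext
    ext i
    have := congrFun (congrArg Subtype.val h) (some i)
    simpa [f] using this
  have : Finite {P : Option σ → ℕ // ∑ i, P i = d} :=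
    Finite.of_equiv _ (Sym.equivNatSumOfFintype (α := Option σ) (n := d))
  calc Nat.card {s : σ →₀ ℕ | (s.sum fun _ e => e) ≤ d}
      ≤ Nat.card {P : Option σ → ℕ // ∑ i, P i = d} := Nat.card_le_card_of_injective f hf
    _ = Nat.card (Sym (Option σ) d) := (Nat.card_congr (Sym.equivNatSumOfFintype _ _)).symm
    _ = Fintype.card (Sym (Option σ) d) := Nat.card_eq_fintype_card
    _ = (d + Fintype.card σ).choose (Fintype.card σ) := by
        rw [Sym.card_sym_eq_choose, Fintype.card_option]
        have : Fintype.card σ + 1 + d - 1 = d + Fintype.card σ := by omega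
        rw [this]
        exact (Nat.choose_symm_add).symm ▸ rfl

/-- If the coordinates of the points of the cube `{0,1}^m` are polynomials of degree at most `d` in
`V` features of the points, then `2 ^ m ≤ binom (m * d + V) V`. -/
theorem two_pow_le_choose (σ : Type) [Fintype σ] (m d : ℕ) (F : Finset (Fin m) → σ → K)
    (q : Fin m → MvPolynomial σ K) (hq : ∀ b, (q b).totalDegree ≤ d)
    (h : ∀ b (S : Finset (Fin m)), eval (F S) (q b) = if b ∈ S then 1 else 0) :
    2 ^ m ≤ (m * d + Fintype.card σ).choose (Fintype.card σ) := by
  classical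
  have hdeg : ∀ S : Finset (Fin m), (∏ b ∈ S, q b) ∈ restrictTotalDegree σ K (m * d) := by
    intro S
    rw [mem_restrictTotalDegree]
    refine (totalDegree_finsetProd _ _).trans ?_
    calc ∑ b ∈ S, (q b).totalDegree ≤ ∑ _b ∈ S, d := Finset.sum_le_sum fun b _ => hq b
      _ = S.card * d := by simp
      _ ≤ m * d := Nat.mul_le_mul_right _ (by simpa using Finset.card_le_univ S)
  let g : Finset (Fin m) → restrictTotalDegree σ K (m * d) := fun S => ⟨∏ b ∈ S, q b, hdeg S⟩
  have hval : ∀ S T : Finset (Fin m), eval (F T) (∏ b ∈ S, q b) = if S ⊆ T then 1 else 0 := by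
    intro S T
    rw [map_prod]
    simp_rw [h]
    split_ifs with hST
    · exact Finset.prod_eq_one fun b hb => if_pos (hST hb)
    · obtain ⟨b, hb, hbT⟩ := Finset.not_subset.1 hST
      exact Finset.prod_eq_zero hb (if_neg hbT)
  have hli : LinearIndependent K g := by
    rw [Fintype.linearIndependent_iff]
    intro a ha S
    have ha' : ∑ S, a S • (∏ b ∈ S, q b) = 0 := by
      have := congrArg Subtype.val ha
      simpa [g] using this
    have hT : ∀ T : Finset (Fin m), ∑ S, a S * (if S ⊆ T then 1 else 0) = 0 := by
      intro T
      have := congrArg (eval (F T)) ha'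
      rw [map_sum, map_zero] at this
      refine Eq.trans ?_ this
      refine Finset.sum_congr rfl fun S _ => ?_
      rw [smul_eq_C_mul, map_mul, eval_C, hval]
    induction S using Finset.strongInduction with
    | H S ih =>
      have h1 := hT S
      rw [Finset.sum_eq_single S] at h1
      · simpa using h1
      · intro T _ hTS
        split_ifs with hsub
        · rw [ih T (Finset.ssubset_iff_subset_ne.2 ⟨hsub, hTS⟩), zero_mul]
        · rw [mul_zero]
      · intro hS; exact absurd (Finset.mem_univ S) hS
  have h2 := hli.fintype_card_le_finrank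
  rw [Fintype.card_finset, Fintype.card_fin] at h2
  exact h2.trans (finrank_restrictTotalDegree_le σ (m * d))

end Pool.Agent.Helper92.RowRank
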