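import Mathlib
import Pool.Agent.Lead.GadgetRank

open Finset MvPolynomial Pool.Agent.Lead

namespace Pool.Agent.Helper92.RowRank

variable {K : Type*} [Field K]

/-- The support of the constant rows of the gadget. -/
def rest {m : ℕ} : Fin m × Bool → Gadget.Ix m → Bool
  | (c, false), j => decide (j = Sum.inr (c, false)) || decide (j = Sum.inr (c, true))
  | (c, true), j => decide (j = Sum.inr (c, true)) || decide (j = Sum.inl false)
      || decide (j = Sum.inl true)

/-- The gadget with two arbitrary rows `x` and `y`. -/
def gmat {m : ℕ} (x y : Fin m → K) : Matrix (Gadget.Ix m) (Gadget.Ix m) K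
  | Sum.inl false, Sum.inr (c, false) => x c
  | Sum.inl false, _ => 0
  | Sum.inl true, Sum.inr (c, true) => y c
  | Sum.inl true, _ => 0
  | Sum.inr r, j => if rest r j = true then 1 else 0

lemma gmat_false {m : ℕ} (x y : Fin m → K) (j : Gadget.Ix m) :
    gmat x y (Sum.inl false) j = ∑ b, x b * (if j = Sum.inr (b, false) then 1 else 0) := by
  rcases j with j | ⟨c, j⟩
  · simp [gmat]
  · cases j
    · simp [gmat]
    · simp [gmat]

lemma gmat_true {m : ℕ} (x y : Fin m → K) (j : Gadget.Ix m) :
    gmat x y (Sum.inl true) j = ∑ b, y b * (if j = Sum.inr (b, true) then 1 else 0) := by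
  rcases j with j | ⟨c, j⟩
  · simp [gmat]
  · cases j
    · simp [gmat]
    · simp [gmat]

lemma permanent_gmat {m : ℕ} (x y : Fin m → K) :
    (gmat x y).permanent = ∑ b, ∑ c, x b * y c * (if b = c then 0 else 2) := by
  classical
  have h1 : ∀ b c : Fin m, (if b = c then (0 : K) else 2) = (Gadget.mat K b c).permanent :=
    fun b c => (Gadget.permanent_mat b c).symm
  simp_rw [h1]
  simp_rw [← Matrix.permanent_transpose (gmat x y), ← Matrix.permanent_transpose (Gadget.mat K _ _)]
  unfold Matrix.permanent
  simp_rw [Finset.mul_sum]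
  symm
  calc ∑ b, ∑ c, ∑ σ : Equiv.Perm (Gadget.Ix m),
        x b * y c * ∏ i, (Gadget.mat K b c).transpose (σ i) i
      = ∑ σ : Equiv.Perm (Gadget.Ix m), ∑ b, ∑ c,
        x b * y c * ∏ i, (Gadget.mat K b c).transpose (σ i) i := by
        rw [Finset.sum_congr rfl fun b _ => Finset.sum_comm]
        exact Finset.sum_comm
    _ = _ := by
      refine Finset.sum_congr rfl fun σ _ => ?_
      have h2 : ∀ b c : Fin m, ∏ i, (Gadget.mat K b c).transpose (σ i) i
          = (if σ (Sum.inl false) = Sum.inr (b, false) then 1 else 0)
            * (if σ (Sum.inl true) = Sum.inr (c, true) then 1 else 0)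
            * ∏ r : Fin m × Bool, (if rest r (σ (Sum.inr r)) = true then (1 : K) else 0) := by
        intro b c
        rw [Fintype.prod_sum_type, Fintype.prod_bool]
        simp only [Matrix.transpose_apply, Gadget.mat, Gadget.supp, decide_eq_true_eq]
        congr 1
        · ring
        · refine Finset.prod_congr rfl fun r _ => ?_
          rcases r with ⟨r, _ | _⟩ <;> rfl
      have h3 : ∏ i, (gmat x y).transpose (σ i) i
          = (gmat x y (Sum.inl false) (σ (Sum.inl false)))
            * (gmat x y (Sum.inl true) (σ (Sum.inl true)))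
            * ∏ r : Fin m × Bool, (if rest r (σ (Sum.inr r)) = true then (1 : K) else 0) := by
        rw [Fintype.prod_sum_type, Fintype.prod_bool]
        simp only [Matrix.transpose_apply]
        rw [mul_comm (gmat x y (Sum.inl true) _)]
        rfl
      rw [h3, gmat_false, gmat_true, Finset.sum_mul_sum, Finset.sum_mul]
      refine Finset.sum_congr rfl fun b _ => ?_
      rw [Finset.sum_mul]
      refine Finset.sum_congr rfl fun c _ => ?_
      rw [h2]
      ring

end Pool.Agent.Helper92.RowRank
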