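import Mathlib

open Finset MvPolynomial

namespace Pool.Agent.Helper92.RowRank

variable {K : Type*} [Field K]

/-- A determinant `det (C + P * Q)` of any size is, up to a constant factor, a determinant of the
size of the inner dimension of `P * Q`, whose rows depend only on the corresponding rows of `Q`. -/
lemma det_reduce {S U : Type*} [Fintype S] [DecidableEq S] [Fintype U] [DecidableEq U]
    (C : Matrix S S K) (P : Matrix S U K) :
    ∃ (c : K) (A : Matrix U U K) (B : Matrix S U K),
      ∀ Q : Matrix U S K, (C + P * Q).det = c * (A + Q * B).det := by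
  by_cases h : ∃ Q0 : Matrix U S K, (C + P * Q0).det ≠ 0
  · obtain ⟨Q0, hQ0⟩ := h
    set C0 := C + P * Q0 with hC0
    have hu : IsUnit C0.det := isUnit_iff_ne_zero.2 hQ0
    refine ⟨C0.det, 1 - Q0 * (C0⁻¹ * P), C0⁻¹ * P, fun Q => ?_⟩
    have h1 : C + P * Q = C0 * (1 + (C0⁻¹ * P) * (Q - Q0)) := by
      rw [mul_add, mul_one, ← Matrix.mul_assoc, ← Matrix.mul_assoc, Matrix.mul_nonsing_inv _ hu,
        Matrix.one_mul, hC0, Matrix.mul_sub]
      abel
    rw [h1, Matrix.det_mul, Matrix.det_one_add_mul_comm]
    congr 2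
    rw [Matrix.sub_mul]
    abel
  · push Not at h
    exact ⟨0, 0, 0, fun Q => by rw [h Q, zero_mul]⟩

/-- The determinant of a matrix whose first rows are features and whose last rows are constant has
degree at most the number of the first rows. -/
lemma totalDegree_det_le {σ : Type*} {a b : ℕ} (M : Matrix (Fin a ⊕ Fin b) (Fin a ⊕ Fin b)
    (MvPolynomial σ K)) (h1 : ∀ i j, (M (Sum.inl i) j).totalDegree ≤ 1)
    (h2 : ∀ i j, (M (Sum.inr i) j).totalDegree ≤ 0) : M.det.totalDegree ≤ a := by
  classical
  rw [← Matrix.det_transpose, Matrix.det_apply']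
  refine totalDegree_finsetSum_le fun τ _ => ?_
  refine (totalDegree_mul _ _).trans ?_
  have e1 : (((Equiv.Perm.sign τ : ℤ) : MvPolynomial σ K)).totalDegree = 0 := by
    rw [← map_intCast (C : K →+* MvPolynomial σ K)]
    exact totalDegree_C _
  rw [e1, zero_add]
  refine (totalDegree_finsetProd _ _).trans ?_
  rw [Fintype.sum_sum_type]
  calc _ ≤ (∑ _i : Fin a, 1) + ∑ _i : Fin b, 0 :=
        Nat.add_le_add (Finset.sum_le_sum fun i _ => by
            rw [Matrix.transpose_apply]; exact h1 _ _)
          (Finset.sum_le_sum fun i _ => by rw [Matrix.transpose_apply]; exact h2 _ _)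
    _ = a := by simp

lemma totalDegree_aeval_le {σ ι : Type*} [Fintype ι] (f : ι → MvPolynomial σ K) (T : ℕ)
    (hf : ∀ k, (f k).totalDegree ≤ T) (Φ : MvPolynomial ι K) :
    (aeval f Φ).totalDegree ≤ Φ.totalDegree * T := by
  classical
  rw [aeval_def, eval₂_eq']
  refine totalDegree_finsetSum_le fun s hs => ?_
  refine (totalDegree_mul _ _).trans ?_
  rw [algebraMap_eq, totalDegree_C, zero_add]
  refine (totalDegree_finsetProd _ _).trans ?_
  calc ∑ i, (f i ^ s i).totalDegree ≤ ∑ i, s i * T :=
        Finset.sum_le_sum fun i _ => (totalDegree_pow _ _).trans (Nat.mul_le_mul_left _ (hf i))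
    _ = (∑ i, s i) * T := by rw [Finset.sum_mul]
    _ ≤ Φ.totalDegree * T := by
        refine Nat.mul_le_mul_right _ ?_
        have := le_totalDegree hs
        rwa [Finsupp.sum_fintype _ _ (fun _ => rfl)] at this

end Pool.Agent.Helper92.RowRank
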