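import Mathlib
import Pool.Agent.Lead.GadgetRank
import Pool.Agent.Helper92.RowRank.Count
import Pool.Agent.Helper92.RowRank.Perm
import Pool.Agent.Helper92.RowRank.Poly

open Finset MvPolynomial Pool.Agent.Lead

namespace Pool.Agent.Helper92.RowRank

variable {K : Type*} [Field K]

/-- the instances -/
def inst {m s n : ℕ} (e : Gadget.Ix m ⊕ Fin s ≃ Fin n) (x y : Fin m → K) :
    Matrix (Fin n) (Fin n) K :=
  (Matrix.fromBlocks (gmat x y) 0 0 (1 : Matrix (Fin s) (Fin s) K)).submatrix e.symm e.symm

lemma permanent_inst {m s n : ℕ} (e : Gadget.Ix m ⊕ Fin s ≃ Fin n) (x y : Fin m → K) :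
    (inst e x y).permanent = ∑ b, ∑ c, x b * y c * (if b = c then 0 else 2) := by
  unfold inst
  rw [GadgetRank.permanent_submatrix_equiv, GadgetRank.permanent_fromBlocks_one, permanent_gmat]

lemma inst_zero_one {m s n : ℕ} (e : Gadget.Ix m ⊕ Fin s ≃ Fin n) (x y : Fin m → K)
    (hx : ∀ b, x b = 0 ∨ x b = 1) (hy : ∀ b, y b = 0 ∨ y b = 1) (i j : Fin n) :
    inst e x y i j = 0 ∨ inst e x y i j = 1 := by
  unfold inst
  simp only [Matrix.submatrix_apply]
  rcases e.symm i with i1 | i1 <;> rcases e.symm j with j1 | j1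
  · simp only [Matrix.fromBlocks_apply₁₁]
    rcases i1 with (_ | _) | r
    · rcases j1 with j1 | ⟨c, _ | _⟩
      · simp [gmat]
      · exact hx c
      · simp [gmat]
    · rcases j1 with j1 | ⟨c, _ | _⟩
      · simp [gmat]
      · simp [gmat]
      · exact hy c
    · simp only [gmat]
      split_ifs <;> simp
  · simp
  · simp
  · simp only [Matrix.fromBlocks_apply₂₂, Matrix.one_apply]
    split_ifs <;> simp

lemma inst_row {m s n : ℕ} (e : Gadget.Ix m ⊕ Fin s ≃ Fin n) (x y x' y' : Fin m → K)
    (i : Fin n) (hx : i ≠ e (Sum.inl (Sum.inl false)) ∨ x = x')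
    (hy : i ≠ e (Sum.inl (Sum.inl true)) ∨ y = y') :
    inst e x y i = inst e x' y' i := by
  obtain ⟨i, rfl⟩ := e.surjective i
  funext j
  unfold inst
  simp only [Matrix.submatrix_apply, Equiv.symm_apply_apply]
  rcases i with ((_ | _) | r) | i1
  · rcases hx with h | rfl
    · exact absurd rfl h
    · rcases e.symm j with j1 | j1
      · simp only [Matrix.fromBlocks_apply₁₁]
        rcases j1 with j1 | ⟨c, _ | _⟩ <;> rfl
      · rfl
  · rcases hy with h | rfl
    · exact absurd rfl h
    · rcases e.symm j with j1 | j1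
      · simp only [Matrix.fromBlocks_apply₁₁]
        rcases j1 with j1 | ⟨c, _ | _⟩ <;> rfl
      · rfl
  · rcases e.symm j with j1 | j1 <;> rfl
  · rcases e.symm j with j1 | j1 <;> rfl

lemma exists_equiv {m n : ℕ} (h : 2 * m + 2 ≤ n) (i j : Fin n) (hij : i ≠ j) :
    ∃ (s : ℕ) (e : Gadget.Ix m ⊕ Fin s ≃ Fin n),
      e (Sum.inl (Sum.inl false)) = i ∧ e (Sum.inl (Sum.inl true)) = j := by
  classical
  have hcard : Fintype.card (Gadget.Ix m ⊕ Fin (n - (2 * m + 2))) = Fintype.card (Fin n) := by
    simp only [Fintype.card_sum, Fintype.card_prod, Fintype.card_bool, Fintype.card_fin]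
    omega
  let e0 := Fintype.equivOfCardEq hcard
  let f : Fin 2 → Fin n := fun a => e0 (Sum.inl (Sum.inl (finTwoEquiv a)))
  let g : Fin 2 → Fin n := ![i, j]
  have hf : Function.Injective f := by
    intro a a' haa
    have h1 := e0.injective haa
    simp only [Sum.inl.injEq] at h1
    exact finTwoEquiv.injective h1
  have hg : Function.Injective g := by
    intro a a' haa
    fin_cases a <;> fin_cases a' <;> simp [g] at haa ⊢
    · exact hij haa
    · exact hij haa.symm
  obtain ⟨π, hπ⟩ := PermRows.exists_perm f g hf hg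
  refine ⟨_, e0.trans π, ?_, ?_⟩
  · exact hπ 0
  · exact hπ 1

/-- The main theorem. -/
theorem main (h2 : (2 : K) ≠ 0) (n N D : ℕ) (s : Fin N → ℕ) (τ : Fin N → Fin n → ℕ)
    (Φ : MvPolynomial (Fin N) K) (hΦ : Φ.totalDegree ≤ D)
    (C : ∀ k, Matrix (Fin (s k)) (Fin (s k)) K)
    (P : ∀ k i, Matrix (Fin (s k)) (Fin (τ k i)) K)
    (Q : ∀ k i, (Fin n → K) → Matrix (Fin (τ k i)) (Fin (s k)) K)
    (h : ∀ X : Matrix (Fin n) (Fin n) K, (∀ i j, X i j = 0 ∨ X i j = 1) →
      X.permanent = eval (fun k => (C k + ∑ i, P k i * Q k i (X i)).det) Φ)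
    (i j : Fin n) (hij : i ≠ j) (T : ℕ) (hT : ∀ k, τ k i ≤ T)
    (m : ℕ) (hm : 2 * m + 2 ≤ n) (hmK : (m : K) ≠ 1) :
    2 ^ m ≤ (m * (D * T) + ∑ k, τ k i * (τ k i + τ k j)).choose
      (∑ k, τ k i * (τ k i + τ k j)) := by
  classical
  obtain ⟨s0, e, hei, hej⟩ := exists_equiv hm i j hij
  -- reduction of the determinants
  have hred : ∀ k : Fin N, ∃ (c : K)
      (F : (Fin m → K) → Matrix (Fin (τ k i)) (Fin (τ k i) ⊕ Fin (τ k j)) K)
      (G : (Fin m → K) → Matrix (Fin (τ k j)) (Fin (τ k i) ⊕ Fin (τ k j)) K),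
      ∀ x y, (C k + ∑ l, P k l * Q k l (inst e x y l)).det
        = c * (Matrix.fromRows (F x) (G y)).det := by
    intro k
    obtain ⟨c, A, B, hAB⟩ := det_reduce
      (C k + ∑ l ∈ (univ.erase i).erase j, P k l * Q k l (inst e 0 0 l))
      (Matrix.fromCols (P k i) (P k j))
    refine ⟨c, fun x => A.toRows₁ + Q k i (inst e x 0 i) * B,
      fun y => A.toRows₂ + Q k j (inst e 0 y j) * B, fun x y => ?_⟩
    have h1 : C k + ∑ l, P k l * Q k l (inst e x y l)
        = (C k + ∑ l ∈ (univ.erase i).erase j, P k l * Q k l (inst e 0 0 l))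
          + Matrix.fromCols (P k i) (P k j) *
            Matrix.fromRows (Q k i (inst e x 0 i)) (Q k j (inst e 0 y j)) := by
      rw [Matrix.fromCols_mul_fromRows, add_assoc]
      congr 1
      rw [← Finset.add_sum_erase univ _ (Finset.mem_univ i),
        ← Finset.add_sum_erase (univ.erase i) _ (Finset.mem_erase.2 ⟨hij.symm, Finset.mem_univ j⟩)]
      rw [inst_row e x y x 0 i (Or.inr rfl) (Or.inl (by rw [hej]; exact hij)),
        inst_row e x y 0 y j (Or.inl (by rw [hei]; exact hij.symm)) (Or.inr rfl)]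
      rw [Finset.sum_congr rfl (g := fun l => P k l * Q k l (inst e 0 0 l)) fun l hl => by
        rw [Finset.mem_erase, Finset.mem_erase] at hl
        rw [inst_row e x y 0 0 l (Or.inl (by rw [hei]; exact hl.2.1))
          (Or.inl (by rw [hej]; exact hl.1))]]
      abel
    rw [h1, hAB]
    congr 2
    conv_lhs => rw [← Matrix.fromRows_toRows A]
    rw [Matrix.fromRows_mul]
    ext (r | r) t <;> simp [Matrix.fromRows]
  choose c F G hFG using hred
  -- the variables
  let σ : Type := Σ k : Fin N, Fin (τ k i) × (Fin (τ k i) ⊕ Fin (τ k j))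
  have hσ : Fintype.card σ = ∑ k, τ k i * (τ k i + τ k j) := by
    simp only [σ, Fintype.card_sigma, Fintype.card_prod, Fintype.card_sum, Fintype.card_fin]
  let feat : (Fin m → K) → σ → K := fun x v => F v.1 x v.2.1 v.2.2
  let dp : (Fin m → K) → Fin N → MvPolynomial σ K := fun y k =>
    MvPolynomial.C (c k) * (Matrix.fromRows
      (Matrix.of fun (a : Fin (τ k i)) (b : Fin (τ k i) ⊕ Fin (τ k j)) =>
        (MvPolynomial.X (⟨k, (a, b)⟩ : σ) : MvPolynomial σ K))
      ((G k y).map MvPolynomial.C)).det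
  have hdp : ∀ y k, (dp y k).totalDegree ≤ T := by
    intro y k
    refine (totalDegree_mul _ _).trans ?_
    rw [totalDegree_C, zero_add]
    refine (totalDegree_det_le _ ?_ ?_).trans (hT k)
    · intro a b
      rw [Matrix.fromRows_apply_inl, Matrix.of_apply]
      exact (totalDegree_X _).le
    · intro a b
      rw [Matrix.fromRows_apply_inr, Matrix.map_apply, totalDegree_C]
  have hdpe : ∀ x y k, eval (feat x) (dp y k) = c k * (Matrix.fromRows (F k x) (G k y)).det := by
    intro x y k
    simp only [dp]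
    rw [map_mul, eval_C, RingHom.map_det]
    congr 2
    ext (a | a) b
    · simp [feat]
    · simp
  let p : (Fin m → K) → MvPolynomial σ K := fun y => aeval (dp y) Φ
  have hp : ∀ y, (p y).totalDegree ≤ D * T := fun y =>
    (totalDegree_aeval_le _ T (hdp y) Φ).trans (Nat.mul_le_mul_right _ hΦ)
  have hpe : ∀ x y : Fin m → K, (∀ b, x b = 0 ∨ x b = 1) → (∀ b, y b = 0 ∨ y b = 1) →
      eval (feat x) (p y) = ∑ b, ∑ d, x b * y d * (if b = d then 0 else 2) := by
    intro x y hx hy
    rw [← permanent_inst e x y, h _ (inst_zero_one e x y hx hy)]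
    simp only [p]
    rw [MvPolynomial.map_aeval]
    have e0 : (eval (feat x)).comp (algebraMap K (MvPolynomial σ K)) = RingHom.id K :=
      RingHom.ext fun a => eval_C a
    rw [e0]
    simp only [hdpe, hFG]
    rfl
  -- decoding
  have hm1 : (2 : K) * (m - 1) ≠ 0 := mul_ne_zero h2 (sub_ne_zero.2 hmK)
  let q : Fin m → MvPolynomial σ K := fun b =>
    MvPolynomial.C (1 / (2 * ((m : K) - 1))) * p 1 - MvPolynomial.C (1 / 2) * p (Pi.single b 1)
  have hq : ∀ b, (q b).totalDegree ≤ D * T := by
    intro b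
    refine (totalDegree_sub _ _).trans (max_le ?_ ?_)
    · refine (totalDegree_mul _ _).trans ?_
      rw [totalDegree_C, zero_add]; exact hp _
    · refine (totalDegree_mul _ _).trans ?_
      rw [totalDegree_C, zero_add]; exact hp _
  have hqe : ∀ b (S : Finset (Fin m)),
      eval (feat (fun a => if a ∈ S then 1 else 0)) (q b) = if b ∈ S then 1 else 0 := by
    intro b S
    set x : Fin m → K := fun a => if a ∈ S then 1 else 0 with hx
    have hx01 : ∀ a, x a = 0 ∨ x a = 1 := by
      intro a; simp only [hx]; split_ifs <;> simp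
    simp only [q]
    rw [map_sub, map_mul, map_mul, eval_C, eval_C, hpe x 1 hx01 (fun _ => Or.inr rfl),
      hpe x (Pi.single b 1) hx01 (fun a => by
        by_cases hab : a = b
        · subst hab; simp
        · simp [Pi.single_eq_of_ne hab])]
    have e1 : ∀ a : Fin m, ∑ d : Fin m, x a * (1 : Fin m → K) d * (if a = d then 0 else 2)
        = x a * (2 * (m - 1)) := by
      intro a
      have : ∀ d : Fin m, x a * (1 : Fin m → K) d * (if a = d then 0 else 2)
          = x a * 2 - (if a = d then x a * 2 else 0) := by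
        intro d
        split_ifs <;> simp
      simp_rw [this]
      rw [Finset.sum_sub_distrib]
      simp only [Finset.sum_const, Finset.card_univ, Fintype.card_fin, nsmul_eq_mul,
        Finset.sum_ite_eq, Finset.mem_univ, if_true]
      ring
    have e2 : ∀ a : Fin m, ∑ d : Fin m, x a * (Pi.single b 1 : Fin m → K) d
        * (if a = d then 0 else 2) = x a * 2 - (if a = b then x a * 2 else 0) := by
      intro a
      rw [Finset.sum_eq_single b]
      · simp only [Pi.single_eq_same, mul_one]
        split_ifs <;> simp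
      · intro d _ hd
        rw [Pi.single_eq_of_ne hd]; ring
      · intro hb; exact absurd (Finset.mem_univ b) hb
    simp_rw [e1, e2]
    rw [Finset.sum_sub_distrib, ← Finset.sum_mul, ← Finset.sum_mul]
    simp only [Finset.sum_ite_eq', Finset.mem_univ, if_true]
    have e3 : x b = if b ∈ S then 1 else 0 := rfl
    rw [← e3]
    field_simp
    ring
  have := two_pow_le_choose σ m (D * T) (fun S => feat (fun a => if a ∈ S then 1 else 0)) q hq hqe
  rwa [hσ] at this

end Pool.Agent.Helper92.RowRank
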