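import Mathlib
import Pool.Agent.Helper92.RowRank.Main

open Finset

namespace Pool.Agent.Helper92.RowRank

/-- The analytic consequence of the binomial inequality. -/
lemma log_bound (m a V : ℕ) (h : 2 ^ m ≤ (m * a + V).choose V) :
    (m : ℝ) ≤ 5 * Real.logb 2 (a + 2) * V := by
  rcases Nat.eq_zero_or_pos V with hV | hV
  · subst hV
    simp only [Nat.choose_zero_right] at h
    have hm : m = 0 := by
      by_contra hm
      have : 2 ≤ 2 ^ m := Nat.le_self_pow hm 2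
      omega
    simp [hm]
  have hV' : (0 : ℝ) < V := by exact_mod_cast hV
  have ha : (0 : ℝ) ≤ a := Nat.cast_nonneg a
  set L : ℝ := Real.logb 2 (a + 2) with hL
  have hL1 : 1 ≤ L := by
    rw [hL, Real.le_logb_iff_rpow_le (by norm_num) (by positivity)]
    simp
  have h2L : (2 : ℝ) ^ L = a + 2 := Real.rpow_logb (by norm_num) (by norm_num) (by positivity)
  set r : ℝ := m / V with hr
  have hmr : (m : ℝ) = r * V := by rw [hr]; field_simp
  have hr0 : 0 ≤ r := by positivity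
  rw [hmr]
  refine mul_le_mul_of_nonneg_right ?_ hV'.le
  by_contra hcon
  push Not at hcon
  have hr5 : 5 ≤ r := by linarith
  -- upper bound for the binomial coefficient
  have h1 : ((2 : ℝ)) ^ m ≤ (Real.exp 1 * (r * a + 1)) ^ V := by
    have h2 : ((2 : ℝ)) ^ m ≤ ((m * a + V).choose V : ℝ) := by exact_mod_cast h
    have h3 : (((m * a + V).choose V : ℕ) : ℝ) ≤ ((m * a + V : ℕ) : ℝ) ^ V / (V.factorial : ℝ) :=
      Nat.choose_le_pow_div V (m * a + V)
    have h4 : ((m * a + V : ℕ) : ℝ) = (V : ℝ) * (r * a + 1) := by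
      push_cast; rw [hmr]; ring
    have h5 : (V : ℝ) ^ V / (V.factorial : ℝ) ≤ Real.exp V :=
      Real.pow_div_factorial_le_exp _ hV'.le V
    calc ((2 : ℝ)) ^ m ≤ ((m * a + V : ℕ) : ℝ) ^ V / (V.factorial : ℝ) := h2.trans h3
      _ = ((V : ℝ) ^ V / (V.factorial : ℝ)) * (r * a + 1) ^ V := by rw [h4, mul_pow]; ring
      _ ≤ Real.exp V * (r * a + 1) ^ V := by gcongr
      _ = (Real.exp 1 * (r * a + 1)) ^ V := by
          rw [mul_pow, ← Real.exp_nat_mul, mul_one]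
  have h6 : (2 : ℝ) ^ r ≤ Real.exp 1 * (r * a + 1) := by
    have h7 : ((2 : ℝ) ^ r) ^ V ≤ (Real.exp 1 * (r * a + 1)) ^ V := by
      rw [← Real.rpow_natCast ((2 : ℝ) ^ r) V, ← Real.rpow_mul (by norm_num), ← hmr,
        Real.rpow_natCast]
      exact h1
    exact le_of_pow_le_pow_left₀ hV.ne' (by positivity) h7
  -- `r ≤ 2 ^ (r / 2)`
  have h8 : r ≤ (2 : ℝ) ^ (r / 2) := by
    have h9 : (2 : ℝ) ^ (r / 2) = (2 : ℝ) ^ (2 : ℝ) * 2 ^ ((r - 4) / 2) := by
      rw [← Real.rpow_add (by norm_num)]; congr 1; ring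
    have h10 : 1 + ((r - 4) / 2) * Real.log 2 ≤ (2 : ℝ) ^ ((r - 4) / 2) := by
      rw [Real.rpow_def_of_pos (by norm_num)]
      have := Real.add_one_le_exp (Real.log 2 * ((r - 4) / 2))
      linarith
    have h11 : (0.5 : ℝ) ≤ Real.log 2 := by have := Real.log_two_gt_d9; linarith
    rw [h9]
    have : (2 : ℝ) ^ (2 : ℝ) = 4 := by norm_num
    rw [this]
    nlinarith
  have h12 : r * a + 1 ≤ (a + 2) * 2 ^ (r / 2) := by
    have : (1 : ℝ) ≤ 2 ^ (r / 2) := Real.one_le_rpow (by norm_num) (by positivity)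
    nlinarith
  have h13 : Real.exp 1 ≤ (2 : ℝ) ^ (3 / 2 : ℝ) := by
    have e1 : ((2 : ℝ) ^ (3 / 2 : ℝ)) ^ 2 = 8 := by
      rw [← Real.rpow_natCast, ← Real.rpow_mul (by norm_num)]
      norm_num
    have e2 : Real.exp 1 ^ 2 ≤ 8 := by
      have := Real.exp_one_lt_d9
      have := Real.exp_pos 1
      nlinarith
    exact le_of_pow_le_pow_left₀ two_ne_zero (by positivity) (e2.trans e1.ge)
  have h14 : (2 : ℝ) ^ r ≤ 2 ^ (3 / 2 + L + r / 2) := by
    calc (2 : ℝ) ^ r ≤ Real.exp 1 * (r * a + 1) := h6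
      _ ≤ (2 : ℝ) ^ (3 / 2 : ℝ) * ((a + 2) * 2 ^ (r / 2)) := by gcongr
      _ = 2 ^ (3 / 2 + L + r / 2) := by
          rw [Real.rpow_add (by norm_num), Real.rpow_add (by norm_num), h2L]
          ring
  have h15 : r ≤ 3 / 2 + L + r / 2 := (Real.rpow_le_rpow_left_iff (by norm_num)).1 h14
  linarith

open MvPolynomial in
/-- The explicit form. -/
theorem explicit {K : Type*} [Field K] (h2 : (2 : K) ≠ 0) (n N D : ℕ) (s : Fin N → ℕ)
    (τ : Fin N → Fin n → ℕ)
    (Φ : MvPolynomial (Fin N) K) (hΦ : Φ.totalDegree ≤ D)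
    (C : ∀ k, Matrix (Fin (s k)) (Fin (s k)) K)
    (P : ∀ k i, Matrix (Fin (s k)) (Fin (τ k i)) K)
    (Q : ∀ k i, (Fin n → K) → Matrix (Fin (τ k i)) (Fin (s k)) K)
    (h : ∀ X : Matrix (Fin n) (Fin n) K, (∀ i j, X i j = 0 ∨ X i j = 1) →
      X.permanent = eval (fun k => (C k + ∑ i, P k i * Q k i (X i)).det) Φ)
    (i j : Fin n) (hij : i ≠ j) (T : ℕ) (hT : ∀ k, τ k i ≤ T) :
    (n : ℝ) ≤ 5 + 10 * Real.logb 2 (D * T + 2) * ∑ k, (τ k i : ℝ) * (τ k i + τ k j) := by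
  have hn : 2 ≤ n := by
    have h1 := i.2
    have h2 := j.2
    by_contra hn
    exact hij (Fin.ext (by omega))
  obtain ⟨m, hm, hmn, hmK⟩ : ∃ m : ℕ, 2 * m + 2 ≤ n ∧ n ≤ 2 * m + 5 ∧ (m : K) ≠ 1 := by
    by_cases h0 : (((n - 2) / 2 : ℕ) : K) = 1
    · rcases hq : (n - 2) / 2 with _ | q
      · rw [hq] at h0; simp at h0
      · refine ⟨q, by omega, by omega, ?_⟩
        rw [hq] at h0
        push_cast at h0
        have : (q : K) = 0 := by linear_combination h0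
        rw [this]; exact zero_ne_one
    · exact ⟨(n - 2) / 2, by omega, by omega, h0⟩
  have h3 := main h2 n N D s τ Φ hΦ C P Q h i j hij T hT m hm hmK
  have h4 := log_bound m (D * T) _ h3
  have h5 : (n : ℝ) ≤ 2 * m + 5 := by exact_mod_cast hmn
  push_cast at h4
  linarith

end Pool.Agent.Helper92.RowRank
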